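import Mathlib.LinearAlgebra.Matrix.NonsingularInverse
import Mathlib.LinearAlgebra.Matrix.Trace

/-!
# Two elements which are not orthogonal for the trace form (project K4, block A2)
-/

set_option autoImplicit false

open Matrix

namespace Pool.Agent.Helper21.K4

variable {n : Type} [Fintype n] [DecidableEq n]

theorem orth_span {F : Type*} [Field F] {U : Set (Matrix n n F)} (h : ∀ y ∈ U, ∀ z ∈ U, (y * z).trace = 0) :
    ∀ y ∈ Submodule.span F U, ∀ z ∈ Submodule.span F U, (y * z).trace = 0 := by
  have h1 : ∀ y ∈ U, ∀ z ∈ Submodule.span F U, (y * z).trace = 0 := by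
    intro y hy z hz
    induction hz using Submodule.span_induction with
    | mem z hz => exact h y hy z hz
    | zero => rw [mul_zero, trace_zero]
    | add z z' _ _ e1 e2 => rw [mul_add, trace_add, e1, e2, add_zero]
    | smul c z _ e => rw [mul_smul_comm, trace_smul, e, smul_zero]
  intro y hy z hz
  induction hy using Submodule.span_induction with
  | mem y hy => exact h1 y hy z hz
  | zero => rw [zero_mul, trace_zero]
  | add y y' _ _ e1 e2 => rw [add_mul, trace_add, e1, e2, add_zero]
  | smul c y _ e => rw [smul_mul_assoc, trace_smul, e, smul_zero]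

/-- **A2** -/
theorem exists_pair {F : Type*} [Field F] (h2 : (2 : F) ≠ 0) (h4 : 4 < Fintype.card n) {U : Set (Matrix n n F)}
    (h : (∀ z : Matrix n n F, z.trace = 0 → z ∈ Submodule.span F U) ∨ ∃ J : Matrix n n F, IsUnit J.det ∧
      (Jᵀ = J ∨ Jᵀ = -J) ∧ ∀ z : Matrix n n F, zᵀ * J + J * z = 0 → z ∈ Submodule.span F U) :
    ∃ y ∈ U, ∃ z ∈ U, (y * z).trace ≠ 0 := by
  by_contra hcon
  push Not at hcon
  have horth := orth_span hcon
  rcases h with h | ⟨J, hJ, hs, h⟩
  · obtain ⟨a, b, hab⟩ := Fintype.exists_pair_of_one_lt_card (by omega : 1 < Fintype.card n)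
    have h5 := horth (single a b 1) (h _ (trace_single_eq_of_ne a b 1 hab)) (single b a 1)
      (h _ (trace_single_eq_of_ne b a 1 hab.symm))
    rw [single_mul_single_same, mul_one, trace_single_eq_same] at h5
    exact one_ne_zero h5
  · have hJ1 : J * J⁻¹ = 1 := mul_nonsing_inv J hJ
    have hJ2 : J⁻¹ * J = 1 := nonsing_inv_mul J hJ
    -- the projection to the Lie algebra
    have hP : ∀ X : Matrix n n F, (X - J⁻¹ * Xᵀ * J)ᵀ * J + J * (X - J⁻¹ * Xᵀ * J) = 0 := by
      intro X
      have e1 : J * (J⁻¹ * Xᵀ * J) = Xᵀ * J := by rw [← mul_assoc, ← mul_assoc, hJ1, one_mul]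
      have e2 : (J⁻¹ * Xᵀ * J)ᵀ * J = J * X := by
        rw [transpose_mul, transpose_mul, transpose_transpose, transpose_nonsing_inv]
        rcases hs with hs | hs
        · rw [hs, mul_assoc, mul_assoc, hJ2, mul_one]
        · rw [hs, show (-J)⁻¹ = -J⁻¹ from by
            rw [inv_eq_left_inv]
            rw [neg_mul_neg, hJ2]]
          rw [neg_mul, neg_mul, mul_assoc, mul_assoc, neg_mul, mul_neg, mul_neg, neg_neg, hJ2, mul_one]
      rw [transpose_sub, sub_mul, mul_sub, e1, e2]
      abel
    have hz : ∀ z : Matrix n n F, zᵀ * J + J * z = 0 → z = 0 := by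
      intro z hz
      rw [ext_iff_trace_mul_left]
      intro X
      rw [mul_zero, trace_zero]
      have h5 := horth _ (h _ (hP X)) z (h z hz)
      have e3 : J * z = -(zᵀ * J) := by
        rw [eq_neg_iff_add_eq_zero, add_comm]
        exact hz
      have e4 : (J⁻¹ * Xᵀ * J * z).trace = -(X * z).trace := by
        rw [mul_assoc, e3, mul_neg, trace_neg, mul_assoc, trace_mul_comm, mul_assoc, mul_assoc, hJ1, mul_one,
          ← transpose_mul, trace_transpose, trace_mul_comm]
      rw [sub_mul, trace_sub, e4, sub_neg_eq_add, ← two_mul] at h5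
      exact (mul_eq_zero.1 h5).resolve_left h2
    -- so `J X = Xᵀ J` for all `X`
    have hX : ∀ X : Matrix n n F, J * X = Xᵀ * J := by
      intro X
      have h5 := hz _ (hP X)
      have h6 : J * (X - J⁻¹ * Xᵀ * J) = 0 := by rw [h5, mul_zero]
      have e1 : J * (J⁻¹ * Xᵀ * J) = Xᵀ * J := by rw [← mul_assoc, ← mul_assoc, hJ1, one_mul]
      rw [mul_sub, e1, sub_eq_zero] at h6
      exact h6
    have h0 : ∀ a b c : n, c ≠ b → J c a = 0 := by
      intro a b c hcb
      have h5 := congrFun (congrFun (hX (single a b 1)) c) b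
      rw [mul_single_apply_same, mul_one, transpose_single, single_mul_apply_of_ne _ _ _ _ _ hcb] at h5
      exact h5
    have hJ0 : J = 0 := by
      ext c a
      obtain ⟨b, hb⟩ := Fintype.exists_ne_of_one_lt_card (by omega : 1 < Fintype.card n) c
      exact h0 a b c hb.symm
    have : Nonempty n := Fintype.card_pos_iff.1 (by omega)
    rw [hJ0, det_zero] at hJ
    exact hJ.ne_zero rfl

end Pool.Agent.Helper21.K4
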